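import Pool.Agent.Helper834.Conseq

/-!
# The cusp inequality for the branch curves of symplectic triple planes

The definitions `Covering` (braid monodromy data of a simple branched covering), `κ`, `nodesPos`,
`nodesNeg`, `ν`, `genus`, `c1sq` are in `Pool/Agent/Helper834/Model.lean` (starting files).

A symplectic covering of the plane of degree three whose branch curve violates the cusp inequality
`κ ≤ (5/3) (g - 1) + (3/2) d` and with `c₁² ≥ 0` has a branch curve of degree `d = 26`, `30`, `32` or `d ≥ 36`;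
if `c₂ ≥ 2` (for example if `b₁ = 0`) then `d = 32` or `d ≥ 36`.
For all coverings, `ν₊` and `ν₋` the numbers of positive and of negative nodes,
`κ ≤ (23/13) (g - 1) + (45/26) d + (5/13) ν₊ + ν₋`.

Proof: the starting files contain the bound for the number of cusps which comes from the
Levine-Tristram signature next to a sixth root of unity; a covering of degree three has no nodes, and its
number of cusps is a multiple of three.
-/

set_option autoImplicit false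

namespace Pool.Agent.Results.MP_bcbe9c_gt.ThreeSheets

open Pool.Agent.Helper834

/-- `c₂` of a covering of degree `N` of the plane. -/
def c2 {N d : ℕ} (X : Covering N d 1) : ℚ := 3 * N + 2 * (X.genus - 1) - X.κ

/-- the branch curve of `X` violates the cusp inequality -/
def Violates {N d : ℕ} (X : Covering N d 1) : Prop := 5 / 3 * (X.genus - 1) + 3 / 2 * d < X.κ

/-- arithmetic for the plane -/
theorem arith1 {d κ p q : ℕ} (h2 : 2 ≤ d)
    (h : 4 * (κ : ℤ) + 2 * p ≤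
      (1 : ℕ) * d * (d - 1) + 2 * (1 : ℕ) * ((d / 6 : ℕ) : ℤ) * (((d / 6 : ℕ) : ℤ) + 1) -
        2 * ((d / 6 : ℕ) : ℤ) +
        2 * ((d : ℤ) - 1 - 2 * ((d / 6 : ℕ) : ℤ)) * ((1 * d / 6 : ℕ) : ℤ) + 4 * q) :
    72 * (κ : ℤ) + 36 * p ≤ 23 * d ^ 2 - 24 * d + 72 * q := by
  obtain ⟨m, r, hr, hd⟩ : ∃ m r : ℕ, r < 6 ∧ d = 6 * m + r :=
    ⟨d / 6, d % 6, Nat.mod_lt _ (by norm_num), (Nat.div_add_mod d 6).symm⟩
  have hm : d / 6 = m := by omega
  rw [one_mul, hm] at h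
  subst hd
  have hm0 : (0 : ℤ) ≤ m := Int.natCast_nonneg m
  have hr' : r = 0 ∨ r = 1 ∨ r = 2 ∨ r = 3 ∨ r = 4 ∨ r = 5 := by omega
  rcases hr' with rfl | rfl | rfl | rfl | rfl | rfl
  · push_cast at h ⊢
    linarith
  · have : (1 : ℤ) ≤ m := by omega
    push_cast at h ⊢
    linarith
  · push_cast at h ⊢
    linarith
  · push_cast at h ⊢
    linarith
  · push_cast at h ⊢
    linarith
  · push_cast at h ⊢
    linarith

theorem coverings34 {N d : ℕ} (X : Covering N d 1)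
    (hN : N = 3 ∨ N = 4 ∧ X.nodesPos = 0 ∧ X.nodesNeg = 0) :
    2 ≤ N ∧ X.nodesPos = 0 ∧ X.nodesNeg = 0 ∧ 3 ∣ X.κ := by
  rcases hN with rfl | ⟨rfl, h1, h2⟩
  · exact ⟨by norm_num, X.nodesPos_three, X.nodesNeg_three, X.three_dvd_three⟩
  · exact ⟨by norm_num, h1, h2, X.three_dvd_four⟩

/-- the numerical part of the inequality for coverings of degree three and four -/
theorem arith3 {d κ : ℕ} (he : Even d) (h2 : 2 ≤ d) (h3 : 3 ∣ κ)
    (hd : (d ≤ 22 ∧ d ≠ 12 ∧ d ≠ 18) ∨ d = 28 ∨ d = 34)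
    (h : 4 * (κ : ℤ) ≤
      (1 : ℕ) * d * (d - 1) + 2 * (1 : ℕ) * ((d / 6 : ℕ) : ℤ) * (((d / 6 : ℕ) : ℤ) + 1) -
        2 * ((d / 6 : ℕ) : ℤ) +
        2 * ((d : ℤ) - 1 - 2 * ((d / 6 : ℕ) : ℤ)) * ((1 * d / 6 : ℕ) : ℤ)) :
    16 * (κ : ℤ) ≤ 5 * d ^ 2 - 6 * d := by
  obtain ⟨e, rfl⟩ := he
  have he : e = 1 ∨ e = 2 ∨ e = 3 ∨ e = 4 ∨ e = 5 ∨ e = 7 ∨ e = 8 ∨ e = 10 ∨
      e = 11 ∨ e = 14 ∨ e = 17 := by omega
  rcases he with rfl | rfl | rfl | rfl | rfl | rfl | rfl | rfl | rfl | rfl |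
    rfl <;> norm_num at h ⊢ <;> omega

/-- the numerical part in the remaining cases -/
theorem arith4 {N d κ : ℕ} (hN : N = 3 ∨ N = 4) (hd : d = 12 ∨ d = 18 ∨ (d = 24 ∧ N = 3))
    (hc : 0 ≤ (d : ℤ) ^ 2 - 12 * d + 18 * N - 2 * κ) :
    16 * (κ : ℤ) ≤ 5 * d ^ 2 - 6 * d := by
  rcases hN with rfl | rfl <;> rcases hd with rfl | rfl | ⟨rfl, _⟩ <;> norm_num at hc ⊢ <;> omega

/-- the numerical part if `c₂ ≥ 2` -/
theorem arith5 {d κ : ℕ} (h3 : 3 ∣ κ) (hd : d = 26 ∨ d = 30)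
    (hc : 3 * (κ : ℤ) ≤ (d : ℤ) ^ 2 - 3 * d + 7) : 16 * (κ : ℤ) ≤ 5 * d ^ 2 - 6 * d := by
  obtain ⟨m, rfl⟩ := h3
  rcases hd with rfl | rfl <;> push_cast at hc ⊢ <;> omega

/-- **The cusp inequality for triple planes.** -/
theorem result :
    -- the inequality is `c₁² ≤ 3 c₂`
    (∀ {N d : ℕ} (X : Covering N d 1), Violates X ↔ 3 * c2 X < X.c1sq) ∧
    -- degree three
    (∀ {d : ℕ} (X : Covering 3 d 1), X.nodesPos = 0 ∧ X.nodesNeg = 0 ∧
      (Violates X → 0 ≤ X.c1sq → d = 26 ∨ d = 30 ∨ d = 32 ∨ 36 ≤ d) ∧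
      (Violates X → 2 ≤ c2 X → d = 32 ∨ 36 ≤ d) ∧
      (Violates X → d = 12 ∨ d = 18 ∨ 24 ≤ d)) ∧
    -- all degrees
    (∀ {N d : ℕ} (X : Covering N d 1), 2 ≤ N →
      (X.κ : ℚ) ≤ 23 / 13 * (X.genus - 1) + 45 / 26 * d + 5 / 13 * X.nodesPos + X.nodesNeg) := by
  have viol : ∀ {N d : ℕ} (X : Covering N d 1), Violates X ↔ 3 * c2 X < X.c1sq := by
    intro N d X
    simp only [Violates, Covering.c1sq, c2]
    constructor
    · intro h
      linarith
    · intro h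
      linarith
  refine ⟨viol, ?_, ?_⟩
  · intro d X
    obtain ⟨hN2, hp, hq, h3⟩ := coverings34 X (Or.inl rfl)
    have key : (d ≤ 22 ∧ d ≠ 12 ∧ d ≠ 18) ∨ d = 28 ∨ d = 34 → ¬ Violates X := by
      intro hd hv
      have h := X.ineq hN2 le_rfl
      rw [hp, hq] at h
      simp only [Nat.cast_zero, mul_zero, add_zero] at h
      have goal := arith3 X.even_d (X.two_le hN2) h3 hd h
      have goal' : 16 * (X.κ : ℚ) ≤ 5 * d ^ 2 - 6 * d := by exact_mod_cast goal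
      have hv' := (viol X).1 hv
      simp only [Covering.c1sq, c2, Covering.genus, Covering.ν, hp, hq] at hv'
      push_cast at hv'
      linarith
    have key2 : d = 12 ∨ d = 18 ∨ (d = 24 ∧ 3 = 3) → 0 ≤ X.c1sq → ¬ Violates X := by
      intro hd hc1 hv
      have hv' := (viol X).1 hv
      simp only [Covering.c1sq, c2, Covering.genus, Covering.ν, hp, hq] at hc1 hv'
      have hc' : (0 : ℤ) ≤ (d : ℤ) ^ 2 - 12 * d + 18 * (3 : ℕ) - 2 * X.κ := by
        have : (0 : ℚ) ≤ (d : ℚ) ^ 2 - 12 * d + 18 * (3 : ℕ) - 2 * X.κ := by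
          push_cast at hc1 ⊢
          linarith
        exact_mod_cast this
      have goal := arith4 (N := 3) (Or.inl rfl) hd hc'
      have goal' : 16 * (X.κ : ℚ) ≤ 5 * d ^ 2 - 6 * d := by exact_mod_cast goal
      push_cast at hv'
      linarith
    have key4 : d = 12 ∨ d = 18 ∨ (d = 24 ∧ 3 = 3) → 0 ≤ c2 X → ¬ Violates X := by
      intro hd hc1 hv
      refine key2 hd ?_ hv
      have hv' := (viol X).1 hv
      linarith
    have key3 : d = 26 ∨ d = 30 → 2 ≤ c2 X → ¬ Violates X := by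
      intro hd hc hv
      have hv' := (viol X).1 hv
      simp only [Covering.c1sq, c2, Covering.genus, Covering.ν, hp, hq] at hc hv'
      have hc' : 3 * (X.κ : ℤ) ≤ (d : ℤ) ^ 2 - 3 * d + 7 := by
        have : 3 * (X.κ : ℚ) ≤ (d : ℚ) ^ 2 - 3 * d + 7 := by
          push_cast at hc
          linarith
        exact_mod_cast this
      have goal := arith5 h3 hd hc'
      have goal' : 16 * (X.κ : ℚ) ≤ 5 * d ^ 2 - 6 * d := by exact_mod_cast goal
      push_cast at hv'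
      linarith
    have hev := X.even_d
    refine ⟨hp, hq, fun hv hc => ?_, fun hv hc => ?_, fun hv => ?_⟩
    · have h1 : ¬ ((d ≤ 22 ∧ d ≠ 12 ∧ d ≠ 18) ∨ d = 28 ∨ d = 34) := fun h => key h hv
      have h2 : ¬ (d = 12 ∨ d = 18 ∨ (d = 24 ∧ 3 = 3)) := fun h => key2 h hc hv
      obtain ⟨e, he⟩ := hev
      omega
    · have h1 : ¬ ((d ≤ 22 ∧ d ≠ 12 ∧ d ≠ 18) ∨ d = 28 ∨ d = 34) := fun h => key h hv
      have h2 : ¬ (d = 12 ∨ d = 18 ∨ (d = 24 ∧ 3 = 3)) := fun h => key4 h (by linarith) hv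
      have h4 : ¬ (d = 26 ∨ d = 30) := fun h => key3 h hc hv
      obtain ⟨e, he⟩ := hev
      omega
    · have h1 : ¬ ((d ≤ 22 ∧ d ≠ 12 ∧ d ≠ 18) ∨ d = 28 ∨ d = 34) := fun h => key h hv
      obtain ⟨e, he⟩ := hev
      omega
  · intro N d X hN
    have h := arith1 (X.two_le hN) (X.ineq hN le_rfl)
    have h' : 72 * (X.κ : ℚ) + 36 * X.nodesPos ≤ 23 * d ^ 2 - 24 * d + 72 * X.nodesNeg := by
      exact_mod_cast h
    simp only [Covering.genus, Covering.ν]
    push_cast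
    linarith

end Pool.Agent.Results.MP_bcbe9c_gt.ThreeSheets
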